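import Pool.Agent.W74.MD.System

set_option autoImplicit false

/-!
# From the game to the numbers
-/

namespace Pool.Agent.W74.MD

open Pool.Agent.H238R3.Lines Pool.Agent.H238R3.Game Pool.Agent.H238R3.Fam

/-- the distance from `x` to the nearest integer -/
noncomputable def nn (x : ℝ) : ℝ := |x - (round x : ℝ)|

/-- `x` is badly approximable: `q * ‖q x‖ ≥ c > 0` for all positive integers `q` -/
def BadlyApprox (x : ℝ) : Prop := ∃ c : ℝ, 0 < c ∧ ∀ q : ℕ, 0 < q → c ≤ (q:ℝ) * nn ((q:ℝ) * x)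

lemma bad_int {ζ : ℝ} (h : BadlyApprox ζ) : ∃ δ : ℝ, 0 < δ ∧ δ ≤ 1 ∧
    ∀ q p : ℤ, q ≠ 0 → δ ≤ |(q:ℝ)| * |(q:ℝ)*ζ - p| := by
  obtain ⟨c, hc, h⟩ := h
  refine ⟨min c 1, lt_min hc one_pos, min_le_right _ _, ?_⟩
  intro q p hq
  have hn : 0 < q.natAbs := Int.natAbs_pos.2 hq
  have h1 := h q.natAbs hn
  have hcast : ((q.natAbs : ℕ) : ℝ) = |(q:ℝ)| := by
    rw [Nat.cast_natAbs, Int.cast_abs]
  rw [hcast] at h1
  refine le_trans (min_le_left _ _) (h1.trans ?_)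
  refine mul_le_mul_of_nonneg_left ?_ (abs_nonneg _)
  unfold nn
  rcases le_or_gt 0 (q:ℝ) with h0 | h0
  · rw [abs_of_nonneg h0]
    exact round_le _ p
  · rw [abs_of_neg h0]
    have h2 := round_le (-(q:ℝ) * ζ) (-p)
    refine h2.trans (le_of_eq ?_)
    rw [← abs_neg]
    congr 1
    push_cast
    ring

lemma bad_of_thB {ξ : ℝ}
    (h : ∀ v : ℤ × ℤ, IsCoprime v.1 v.2 → 0 < v.1 → (thB v).2 ≤ |ξ - (thB v).1|) :
    BadlyApprox ξ := by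
  refine ⟨1/2^39, by positivity, ?_⟩
  intro q hq
  set p : ℤ := round ((q:ℝ) * ξ) with hp
  have hqz : (q:ℤ) ≠ 0 := by omega
  obtain ⟨g, q0, p0, hg, hcop, hq0, hp0⟩ : ∃ g q0 p0 : ℤ, 0 < g ∧ IsCoprime q0 p0 ∧
      (q:ℤ) = g * q0 ∧ p = g * p0 := by
    refine ⟨(Int.gcd q p : ℤ), (q:ℤ) / (Int.gcd q p : ℤ), p / (Int.gcd q p : ℤ), ?_, ?_, ?_, ?_⟩
    · have := Int.gcd_pos_of_ne_zero_left p hqz
      exact_mod_cast this
    · rw [Int.isCoprime_iff_gcd_eq_one]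
      exact Int.gcd_ediv_gcd_ediv_gcd (Int.gcd_pos_of_ne_zero_left p hqz)
    · exact (Int.mul_ediv_cancel' (Int.gcd_dvd_left _ _)).symm
    · exact (Int.mul_ediv_cancel' (Int.gcd_dvd_right _ _)).symm
  have hq0pos : 0 < q0 := by
    by_contra hneg
    push Not at hneg
    have : g * q0 ≤ 0 := mul_nonpos_of_nonneg_of_nonpos hg.le hneg
    omega
  have h1 := h (q0, p0) hcop hq0pos
  simp only [thB] at h1
  have hgr : (1:ℝ) ≤ (g:ℝ) := by exact_mod_cast hg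
  have hq0r : (0:ℝ) < (q0:ℝ) := by exact_mod_cast hq0pos
  have hqr : (q:ℝ) = g * q0 := by exact_mod_cast hq0
  have hpr : (p:ℝ) = g * p0 := by exact_mod_cast hp0
  unfold nn
  rw [← hp]
  have e : (q:ℝ) * ξ - p = (g * q0) * (ξ - (p0:ℝ)/q0) := by
    rw [hqr, hpr]; field_simp
  rw [e, abs_mul, abs_of_pos (by positivity : (0:ℝ) < g * q0), hqr]
  rw [div_le_iff₀ (by positivity)] at h1
  set t := |ξ - (p0:ℝ)/q0| with ht
  have ht0 : 0 ≤ t := abs_nonneg _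
  rw [div_le_iff₀ (by positivity)]
  calc (1:ℝ) ≤ t * (2^39 * (q0:ℝ)^2) := h1
    _ = t * (2^39 * (q0:ℝ)^2) * (1 * 1) := by ring
    _ ≤ t * (2^39 * (q0:ℝ)^2) * (g * g) := by gcongr
    _ = g * q0 * (g * q0 * t) * 2^39 := by ring

theorem main {ζ : ℝ} (hζ : BadlyApprox ζ) :
    ∃ (N0 C : ℕ), 1 ≤ N0 ∧ 1 ≤ C ∧ ∀ (a s : ℕ → ℕ), (∀ m, C ≤ a m) → (∀ m, 1 ≤ s m) →
      StrictMono a → (∀ m, a m ≤ s m * (a (m+1) - a m)) →
      ∃ ξ : ℝ, BadlyApprox ξ ∧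
      ∀ (m : ℕ) (q : ℕ), 0 < q → q ≤ 16^(a m) →
        1/((N0 * s m : ℕ):ℝ)^12 ≤ ((16^(a m) : ℕ):ℝ) * (nn ((q:ℝ) * ξ) * nn ((q:ℝ) * ζ)) := by
  obtain ⟨δ, hδ, hδ1, hbad⟩ := bad_int hζ
  obtain ⟨N0, C, hN0, hC, H⟩ := system ζ δ hδ hδ1 hbad
  refine ⟨N0, C, hN0, hC, ?_⟩
  intro a s haC hs hmono has
  obtain ⟨ξ, hB, hP⟩ := H a s haC hs hmono has
  refine ⟨ξ, bad_of_thB hB, ?_⟩
  intro N q hq hqQ
  obtain ⟨ε, hε⟩ : ∃ ε : ℝ, ε = 1/((N0 * s N : ℕ):ℝ)^12 := ⟨_, rfl⟩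
  rw [← hε]
  have hqr : (0:ℝ) < q := by exact_mod_cast hq
  have hQe : (((16^(a N) : ℕ)):ℝ) = ((2:ℝ)^(a N))^4 := by
    rw [Nat.cast_pow, ← pow_mul, mul_comm (a N) 4, pow_mul (2:ℝ) 4]
    congr 1
    norm_num
  unfold nn
  have hhalf : |(q:ℝ) * ζ - (round ((q:ℝ) * ζ) : ℝ)| ≤ 1/2 := abs_sub_round _
  set p : ℤ := round ((q:ℝ) * ξ) with hp
  set p' : ℤ := round ((q:ℝ) * ζ) with hp'
  obtain ⟨g, z, hg, hz, h1, h2, h3⟩ := exists_prim (q:ℤ) p' p (by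
    rintro ⟨h, _, _⟩
    omega)
  have hgr : (1:ℝ) ≤ (g:ℝ) := by exact_mod_cast hg
  have hg0 : (0:ℝ) < (g:ℝ) := lt_of_lt_of_le one_pos hgr
  have hqg : (q:ℝ) = g * z.1 := by exact_mod_cast h1
  have hpg' : (p':ℝ) = g * z.2.1 := by exact_mod_cast h2
  have hpg : (p:ℝ) = g * z.2.2 := by exact_mod_cast h3
  have hz1 : (0:ℝ) < z.1 := by
    by_contra hneg
    push Not at hneg
    nlinarith
  have hz1' : 0 < z.1 := by exact_mod_cast hz1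
  have hbz := hbad z.1 z.2.1 (by omega)
  rw [abs_of_pos hz1, show (z.1:ℝ)*ζ - z.2.1 = -((z.2.1:ℝ) - ζ * z.1) by ring, abs_neg] at hbz
  have hnζ : |(q:ℝ) * ζ - p'| = g * |(z.2.1:ℝ) - ζ * z.1| := by
    have e : (q:ℝ) * ζ - p' = -(g * ((z.2.1:ℝ) - ζ * z.1)) := by rw [hpg', hqg]; ring
    rw [e, abs_neg, abs_mul, abs_of_pos hg0]
  set y := |(z.2.1:ℝ) - ζ * z.1| with hy
  have hy0 : 0 < y := by
    by_contra hneg
    push Not at hneg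
    nlinarith
  have hnξ : |(q:ℝ) * ξ - p| = g * (z.1 * |ξ - (z.2.2:ℝ)/z.1|) := by
    have e : (q:ℝ) * ξ - p = g * (z.1 * (ξ - (z.2.2:ℝ)/z.1)) := by
      rw [hpg, hqg]; field_simp
    rw [e, abs_mul, abs_mul, abs_of_pos hg0, abs_of_pos hz1]
  have hy1 : y < 1 := by
    rw [hnζ] at hhalf
    nlinarith
  have hzQ : (z.1:ℝ) ≤ ((2:ℝ)^(a N))^4 := by
    rw [← hQe]
    have h6 : (z.1:ℝ) ≤ q := by rw [hqg]; nlinarith
    have h7 : (q:ℝ) ≤ ((16^(a N) : ℕ):ℝ) := by exact_mod_cast hqQ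
    linarith
  have h4 := hP N z hz hz1' hzQ hy1
  rw [← hε] at h4
  simp only [thP] at h4
  rw [← hy] at h4
  set A := (2:ℝ)^(a N) with hA
  have hA0 : 0 < A := by rw [hA]; positivity
  clear_value A
  rw [hnζ, hnξ, hQe]
  set t := |ξ - (z.2.2:ℝ)/z.1| with ht
  have ht0 : 0 ≤ t := abs_nonneg _
  rw [div_le_iff₀ (by positivity)] at h4
  calc ε ≤ t * (A^4 * z.1 * y) := h4
    _ = A^4 * (z.1 * t * y) * (1 * 1) := by ring
    _ ≤ A^4 * (z.1 * t * y) * (g * g) := by gcongr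
    _ = A^4 * ((g * (z.1 * t)) * (g * y)) := by ring

end Pool.Agent.W74.MD
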