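import Pool.Agent.H238R3.Build294

set_option autoImplicit false

/-!
# The game with an arbitrary increasing sequence of levels
-/

namespace Pool.Agent.W74.MD

open Pool.Agent.H238R3.Lines Pool.Agent.H238R3.Game Pool.Agent.H238R3.Fam

/-- total weight of the dyadic classes of one level -/
lemma level_sum' (N K : ℕ) (k : ℕ) (hk : k ≤ 8) (hN : 2^47 ≤ (N:ℝ)) (ε : ℝ)
    (hε : ε = 1/(N:ℝ)^12) :
    ∑ i ∈ Finset.range (K+1), ((N^k : ℕ):ℝ) * W (2^40 * ε * ((2:ℝ)^i/2^K)) ≤ 2^32/N := by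
  have hN0 : (0:ℝ) < N := by linarith [show (0:ℝ) < 2^47 by positivity]
  have hN1 : (1:ℝ) ≤ N := by linarith [show (1:ℝ) ≤ 2^47 by norm_num]
  have h1 : ∀ i ∈ Finset.range (K+1), ((N^k : ℕ):ℝ) * W (2^40 * ε * ((2:ℝ)^i/2^K)) ≤
      (2^30/N) * W ((2:ℝ)^i/2^K) := by
    intro i _
    have e1 : 2^40 * ε = (2^10/(N:ℝ)^3)^4 := by rw [hε]; field_simp
    have e2 : W (2^40 * ε) = 2^30/(N:ℝ)^9 := by
      rw [e1, W_pow4 (by positivity)]; field_simp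
    rw [W_mul (by rw [e1]; positivity) (by positivity), e2, ← mul_assoc]
    refine mul_le_mul_of_nonneg_right ?_ (W_nonneg (by positivity))
    rw [← mul_div_assoc, div_le_div_iff₀ (by positivity) hN0]
    push_cast
    calc (N:ℝ)^k * 2^30 * N ≤ (N:ℝ)^8 * 2^30 * N := by
          have : (N:ℝ)^k ≤ (N:ℝ)^8 := pow_le_pow_right₀ hN1 hk
          gcongr
      _ = 2^30 * (N:ℝ)^9 := by ring
  refine (Finset.sum_le_sum h1).trans ?_
  rw [← Finset.mul_sum]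
  have h2 := sumW K
  have h4 : (0:ℝ) ≤ 2^30/N := by positivity
  calc (2^30/N : ℝ) * ∑ i ∈ Finset.range (K+1), W ((2:ℝ)^i/2^K) ≤ (2^30/N : ℝ) * (5/2) := by gcongr
    _ ≤ (2^30/N : ℝ) * 4 := by gcongr; norm_num
    _ = 2^32/N := by ring

/-- the sum of `1/s m` over the levels between `m0` and `m1` -/
lemma sum_inv (a s : ℕ → ℕ) (hs : ∀ m, 1 ≤ s m) (ha1 : ∀ m, 1 ≤ a m)
    (has : ∀ m, a m ≤ s m * (a (m+1) - a m)) (hmono : StrictMono a) (m0 : ℕ) :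
    ∀ m1, m0 ≤ m1 → ∑ m ∈ Finset.Ico m0 m1, (1:ℝ)/s m ≤ ((a m1 : ℝ) - a m0)/a m0 := by
  intro m1 h
  induction m1, h using Nat.le_induction with
  | base => simp
  | succ n hn ih =>
    rw [Finset.sum_Ico_succ_top hn]
    have h0 : (1:ℝ) ≤ a m0 := by exact_mod_cast ha1 m0
    have hsn : (1:ℝ) ≤ s n := by exact_mod_cast hs n
    have h1 : (a m0 : ℝ) ≤ a n := by exact_mod_cast hmono.monotone hn
    have h2 : (a n : ℝ) ≤ s n * ((a (n+1) : ℝ) - a n) := by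
      have h3 := has n
      have h4 : a n ≤ a (n+1) := (hmono (Nat.lt_succ_self n)).le
      have : ((a n : ℕ) : ℝ) ≤ ((s n * (a (n+1) - a n) : ℕ) : ℝ) := by exact_mod_cast h3
      rwa [Nat.cast_mul, Nat.cast_sub h4] at this
    have h3 : (1:ℝ)/s n ≤ ((a (n+1) : ℝ) - a n)/a m0 := by
      rw [div_le_div_iff₀ (by linarith) (by linarith)]
      linarith
    calc _ ≤ ((a n : ℝ) - a m0)/a m0 + ((a (n+1) : ℝ) - a n)/a m0 := add_le_add ih h3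
      _ = _ := by ring

theorem system (ζ δ : ℝ) (hδ : 0 < δ) (hδ1 : δ ≤ 1)
    (hbad : ∀ q p : ℤ, q ≠ 0 → δ ≤ |(q:ℝ)| * |(q:ℝ)*ζ - p|) :
    ∃ (N0 C : ℕ), 1 ≤ N0 ∧ 1 ≤ C ∧ ∀ (a s : ℕ → ℕ), (∀ m, C ≤ a m) → (∀ m, 1 ≤ s m) →
      StrictMono a → (∀ m, a m ≤ s m * (a (m+1) - a m)) →
      ∃ ξ : ℝ, (∀ v : ℤ × ℤ, IsCoprime v.1 v.2 → 0 < v.1 → (thB v).2 ≤ |ξ - (thB v).1|) ∧
      ∀ (m : ℕ) (v : ℤ × ℤ × ℤ), Prim v → 0 < v.1 → (v.1:ℝ) ≤ ((2:ℝ)^(a m))^4 →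
        |(v.2.1:ℝ) - ζ * v.1| < 1 →
        (thP ζ (1/((N0 * s m : ℕ):ℝ)^12) ((2:ℝ)^(a m)) v).2 ≤
          |ξ - (thP ζ (1/((N0 * s m : ℕ):ℝ)^12) ((2:ℝ)^(a m)) v).1| := by
  classical
  obtain ⟨N0, hN⟩ := exists_nat_ge (max (2^51) (1/δ))
  have hN51 : 2^51 ≤ (N0:ℝ) := (le_max_left _ _).trans hN
  have hN00 : (0:ℝ) < N0 := by linarith [show (0:ℝ) < 2^51 by positivity]
  obtain ⟨C, hC⟩ := pow_unbounded_of_one_lt (2^20/δ) (show (1:ℝ) < 2 by norm_num)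
  have hC1 : 1 ≤ C := by
    rcases Nat.eq_zero_or_pos C with h | h
    · rw [h, pow_zero, div_lt_one hδ] at hC
      linarith [show (1:ℝ) ≤ 2^20 by norm_num]
    · exact h
  refine ⟨N0, C, by exact_mod_cast (show (1:ℝ) ≤ N0 by linarith [show (1:ℝ) ≤ 2^51 by norm_num]),
    hC1, ?_⟩
  intro a s haC hs hmono has
  have hNs : ∀ m, (N0:ℝ) ≤ ((N0 * s m : ℕ):ℝ) := by
    intro m
    have : N0 ≤ N0 * s m := Nat.le_mul_of_pos_right N0 (hs m)
    exact_mod_cast this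
  have hN47 : ∀ m, 2^47 ≤ ((N0 * s m : ℕ):ℝ) := fun m =>
    le_trans (le_trans (by norm_num) hN51) (hNs m)
  have hNδ : ∀ m, 1 ≤ ((N0 * s m : ℕ):ℝ) * δ := by
    intro m
    have := (le_max_right _ _).trans (hN.trans (hNs m))
    rwa [div_le_iff₀ hδ] at this
  obtain ⟨N, hNdef⟩ : ∃ N : ℕ → ℕ, N = fun m => N0 * s m := ⟨_, rfl⟩
  obtain ⟨ε, hεdef⟩ : ∃ ε : ℕ → ℝ, ε = fun m => 1/((N m : ℕ):ℝ)^12 := ⟨_, rfl⟩
  have hε : ∀ m, ε m = 1/((N m : ℕ):ℝ)^12 := fun m => by rw [hεdef]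
  have hN47' : ∀ m, 2^47 ≤ ((N m : ℕ):ℝ) := fun m => by rw [hNdef]; exact hN47 m
  have hNδ' : ∀ m, 1 ≤ ((N m : ℕ):ℝ) * δ := fun m => by rw [hNdef]; exact hNδ m
  have hNpos : ∀ m, (0:ℝ) < ((N m : ℕ):ℝ) := fun m => by
    linarith [hN47' m, show (0:ℝ) < 2^47 by positivity]
  have hε0 : ∀ m, 0 < ε m := by
    intro m
    rw [hε]
    have := hNpos m
    positivity
  have hgoal : ∀ m, (1/((N0 * s m : ℕ):ℝ)^12) = ε m := by
    intro m; rw [hε, hNdef]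
  simp only [hgoal]
  set A : ℕ → ℝ := fun m => (2:ℝ)^(a m) with hA
  have hAC : ∀ m, 2^20/δ ≤ A m := by
    intro m
    refine hC.le.trans ?_
    exact pow_le_pow_right₀ (by norm_num) (haC m)
  have hA1 : ∀ m, 1 ≤ A m := fun m => one_le_pow₀ (by norm_num)
  have hAδ : ∀ m, 2^20 ≤ A m * δ := by
    intro m
    have := hAC m
    rwa [div_le_iff₀ hδ] at this
  let Thr : ℕ → Set (ℝ × ℝ) := fun n =>
    {t | (∃ v, okB (rho n) v ∧ t = thB v) ∨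
      (∃ m i v, okP ζ (rho n) (A m) (2^i) v ∧ t = thP ζ (ε m) (A m) v) ∨
      (∃ m j w, okD (rho n) (A m) (2^j) w ∧ t = thD ζ (ε m) (A m) (2^j) w)}
  -- stages of the threats
  have stB : ∀ v : ℤ × ℤ, IsCoprime v.1 v.2 → 0 < v.1 → ∃ n, thB v ∈ Thr n ∧
      1/(8 * (v.1:ℝ)^2) ≤ 65536 * rho n := by
    intro v hv hv0
    have h1 : (1:ℝ) ≤ (v.1:ℝ) := by exact_mod_cast hv0
    have h2 : (1:ℝ) ≤ (v.1:ℝ)^2 := one_le_pow₀ h1
    obtain ⟨n, hn1, hn2⟩ := exists_stage (1/(8 * (v.1:ℝ)^2)) (by positivity)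
      ((div_le_one (by positivity)).2 (by linarith))
    exact ⟨n, Or.inl ⟨v, ⟨hv, hv0, hn1, hn2⟩, rfl⟩, hn2⟩
  have stP : ∀ (m i : ℕ) (v : ℤ × ℤ × ℤ), Prim v → 0 < v.1 → ((2:ℝ)^i)^4 ≤ (v.1:ℝ) →
      (v.1:ℝ) < 16 * ((2:ℝ)^i)^4 → (v.1:ℝ) ≤ (A m)^4 → |(v.2.1:ℝ) - ζ * v.1| < 1 →
      ∃ n, thP ζ (ε m) (A m) v ∈ Thr n ∧
        1/(2^24 * (A m)^3 * ((2:ℝ)^i)^5 * |(v.2.1:ℝ) - ζ * v.1|) ≤ 65536 * rho n := by
    intro m i v hv hv0 h1 h2 h3 h4
    have hq : (0:ℝ) < (v.1:ℝ) := by exact_mod_cast hv0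
    have hb := hbad v.1 v.2.1 (by omega)
    rw [abs_of_pos hq, show (v.1:ℝ)*ζ - v.2.1 = -((v.2.1:ℝ) - ζ * v.1) by ring, abs_neg] at hb
    set y := |(v.2.1:ℝ) - ζ * v.1| with hy
    have hy0 : 0 < y := by
      by_contra hneg
      push Not at hneg
      nlinarith
    have hAm := hA1 m
    have hi1 : (1:ℝ) ≤ (2:ℝ)^i := one_le_pow₀ (by norm_num)
    set f := (2:ℝ)^i with hf
    have h5 : δ ≤ 16 * f^4 * y := hb.trans (mul_le_mul_of_nonneg_right h2.le hy0.le)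
    have h6 : 1 ≤ 2^24 * (A m)^3 * f^5 * y := by
      have h7 : 1 ≤ A m * δ := le_trans (by norm_num) (hAδ m)
      have h8 : 1 ≤ (A m)^2 := one_le_pow₀ hAm
      calc (1:ℝ) ≤ A m * δ := h7
        _ ≤ A m * (16 * f^4 * y) := by gcongr
        _ = (16 * 1 * A m) * 1 * f^4 * y := by ring
        _ ≤ (2^24 * (A m)^2 * A m) * f * f^4 * y := by gcongr; norm_num
        _ = 2^24 * (A m)^3 * f^5 * y := by ring
    obtain ⟨n, hn1, hn2⟩ := exists_stage (1/(2^24 * (A m)^3 * f^5 * y)) (by positivity)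
      ((div_le_one (by positivity)).2 h6)
    exact ⟨n, Or.inr (Or.inl ⟨m, i, v, ⟨hv, h1, h2, h3, h4, hn1, hn2⟩, rfl⟩), hn2⟩
  have stD : ∀ (m j : ℕ) (w : ℤ × ℤ × ℤ), Prim w → 0 < w.1 → ((2:ℝ)^j)^4 ≤ (w.1:ℝ) * |(w.2.1:ℝ)| →
      (w.1:ℝ) * |(w.2.1:ℝ)| < 16 * ((2:ℝ)^j)^4 → (w.1:ℝ) * |(w.2.1:ℝ)| ≤ (A m)^4 →
      ∃ n, thD ζ (ε m) (A m) (2^j) w ∈ Thr n ∧
        1/(2^24 * (A m)^2 * ((2:ℝ)^j)^2 * w.1) ≤ 65536 * rho n := by
    intro m j w hw hw0 h1 h2 h3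
    have hb : (1:ℝ) ≤ (w.1:ℝ) := by exact_mod_cast hw0
    have hAm := hA1 m
    have hi1 : (1:ℝ) ≤ (2:ℝ)^j := one_le_pow₀ (by norm_num)
    have h6 : 1 ≤ 2^24 * (A m)^2 * ((2:ℝ)^j)^2 * w.1 := by
      have h7 : (1:ℝ) ≤ (A m)^2 := one_le_pow₀ hAm
      have h8 : (1:ℝ) ≤ ((2:ℝ)^j)^2 := one_le_pow₀ hi1
      calc (1:ℝ) ≤ 2^24 * 1 * 1 * 1 := by norm_num
        _ ≤ 2^24 * (A m)^2 * ((2:ℝ)^j)^2 * w.1 := by gcongr
    obtain ⟨n, hn1, hn2⟩ := exists_stage (1/(2^24 * (A m)^2 * ((2:ℝ)^j)^2 * w.1)) (by positivity)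
      ((div_le_one (by positivity)).2 h6)
    exact ⟨n, Or.inr (Or.inr ⟨m, j, w, ⟨hw, hw0, h1, h2, h3, hn1, hn2⟩, rfl⟩), hn2⟩
  have hfin : ∀ (n : ℕ) (x : ℝ),
      (∀ m < n, ∀ t ∈ Thr m, ¬ (|x - t.1| + rho n ≤ t.2)) →
      Small (rho n) {t | t ∈ Thr n ∧ |t.1 - x| < t.2 + rho n} (1/8192) := by
    intro n x hno
    have hρ := rho_pos n
    set ρ := rho n with hρdef
    -- the active levels
    let act : ℕ → Prop := fun m => 1 ≤ 2^40 * ρ * (A m)^8 ∧ ρ * δ * (2^20 * (A m)^2) < 1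
    have hlt : ∀ m m', act m → act m' → 2 * a m' < 9 * a m := by
      intro m m' h h'
      by_contra hmm
      push Not at hmm
      have h1 := h.1
      have h2 := h'.2
      have h3 : (A m)^9 ≤ (A m')^2 := by
        simp only [hA]
        rw [← pow_mul, ← pow_mul]
        refine pow_le_pow_right₀ (by norm_num) ?_
        omega
      have hAm := hA1 m
      have h5 : ρ * δ * (2^20 * (A m)^9) < 1 := by
        refine lt_of_le_of_lt ?_ h2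
        gcongr
      have h6 : 2^20 ≤ A m * δ := hAδ m
      have h7 : (1:ℝ) ≤ ρ * δ * (2^20 * (A m)^9) := by
        calc (1:ℝ) ≤ 2^40 * ρ * (A m)^8 := h1
          _ = (2^20 * ρ * (A m)^8) * 2^20 := by ring
          _ ≤ (2^20 * ρ * (A m)^8) * (A m * δ) := by gcongr
          _ = ρ * δ * (2^20 * (A m)^9) := by ring
      linarith
    obtain ⟨I, hI, hIsum⟩ : ∃ I : Finset ℕ, (∀ m, act m → m ∈ I) ∧
        ∑ m ∈ I, (1:ℝ)/s m ≤ 8 := by
      by_cases h : ∃ m, act m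
      · obtain ⟨m0, hm0, hmin⟩ : ∃ m0, act m0 ∧ ∀ m, act m → m0 ≤ m :=
          ⟨Nat.find h, Nat.find_spec h, fun m hm => Nat.find_min' h hm⟩
        have hex : ∃ m, m0 ≤ m ∧ 9 * a m0 ≤ 2 * a m := by
          refine ⟨m0 + 9 * a m0, by omega, ?_⟩
          have := hmono.id_le (m0 + 9 * a m0)
          simp only [id] at this
          omega
        obtain ⟨m1, ⟨hm1a, hm1b⟩, hm1c⟩ : ∃ m1, (m0 ≤ m1 ∧ 9 * a m0 ≤ 2 * a m1) ∧
            ∀ m, (m0 ≤ m ∧ 9 * a m0 ≤ 2 * a m) → m1 ≤ m :=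
          ⟨Nat.find hex, Nat.find_spec hex, fun m hm => Nat.find_min' hex hm⟩
        refine ⟨Finset.Ico m0 m1, ?_, ?_⟩
        · intro m hm
          rw [Finset.mem_Ico]
          refine ⟨hmin m hm, ?_⟩
          by_contra hge
          push Not at hge
          have h1 := hlt m0 m hm0 hm
          have h2 := hmono.monotone hge
          omega
        · have ha0 : 1 ≤ a m0 := le_trans hC1 (haC m0)
          have ha0r : (1:ℝ) ≤ a m0 := by exact_mod_cast ha0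
          have hne : m0 < m1 := by
            rcases Nat.lt_or_ge m0 m1 with h | h
            · exact h
            · have : m1 = m0 := le_antisymm h hm1a
              rw [this] at hm1b
              omega
          obtain ⟨k, hk⟩ : ∃ k, m1 = k + 1 := ⟨m1 - 1, by omega⟩
          have hkm : m0 ≤ k := by omega
          have hk2 : 2 * a k < 9 * a m0 := by
            by_contra hge
            push Not at hge
            have := hm1c k ⟨hkm, hge⟩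
            omega
          rw [hk, Finset.sum_Ico_succ_top hkm]
          have h1 := sum_inv a s hs (fun m => le_trans hC1 (haC m)) has hmono m0 k hkm
          have hsk : (1:ℝ)/s k ≤ 1 := by
            have : (1:ℝ) ≤ s k := by exact_mod_cast hs k
            rw [div_le_one (by linarith)]
            exact this
          have h2 : ((a k : ℝ) - a m0)/a m0 ≤ 7 := by
            rw [div_le_iff₀ (by linarith)]
            have : (2:ℝ) * a k < 9 * a m0 := by exact_mod_cast hk2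
            linarith
          linarith
      · push Not at h
        exact ⟨∅, fun m hm => absurd hm (h m), by simp⟩
    have actP : ∀ m i v, okP ζ ρ (A m) (2^i) v → act m ∧ i ∈ Finset.range (a m+1) := by
      intro m i v hv
      have hAm := hA1 m
      have hi1 : (1:ℝ) ≤ (2:ℝ)^i := one_le_pow₀ (by norm_num)
      obtain ⟨g1, g2, g3, g4, g5, g6, g7⟩ := id hv
      have hiA : (2:ℝ)^i ≤ A m :=
        le_of_pow_le_pow_left₀ (by norm_num) (by linarith) (g2.trans g4)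
      obtain ⟨f1, f2, f3, f4, f5, f6, f7⟩ := factsP hρ hi1 hiA hδ hbad (hε0 m) hv
      set y := |(v.2.1:ℝ) - ζ * v.1| with hy
      set f := (2:ℝ)^i with hf
      refine ⟨⟨?_, ?_⟩, ?_⟩
      · calc (1:ℝ) ≤ 2^40 * ρ * (A m)^3 * f^5 * y := f5
          _ ≤ 2^40 * ρ * (A m)^3 * (A m)^5 * 1 := by gcongr
          _ = 2^40 * ρ * (A m)^8 := by ring
      · have h5 : δ ≤ 16 * f^4 * y := f3.trans (mul_le_mul_of_nonneg_right g3.le f2.le)
        calc ρ * δ * (2^20 * (A m)^2) ≤ ρ * (16 * f^4 * y) * (2^20 * (A m)^2) := by gcongr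
          _ = ρ * (2^24 * (A m)^2 * 1 * (f^4 * 1) * y) := by ring
          _ ≤ ρ * (2^24 * (A m)^2 * (A m) * (f^4 * f) * y) := by gcongr
          _ = ρ * (2^24 * (A m)^3 * f^5 * y) := by ring
          _ < 1 := f4
      · rw [Finset.mem_range]
        have h1 : (2:ℝ)^i ≤ (2:ℝ)^(a m) := hiA
        rw [pow_le_pow_iff_right₀ (by norm_num)] at h1
        omega
    have actD : ∀ m j w, okD ρ (A m) (2^j) w → act m ∧ j ∈ Finset.range (a m+1) := by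
      intro m j w hw
      have hAm := hA1 m
      have hi1 : (1:ℝ) ≤ (2:ℝ)^j := one_le_pow₀ (by norm_num)
      obtain ⟨g1, g2, g3, g4, g5, g6, g7⟩ := id hw
      have hjA : (2:ℝ)^j ≤ A m :=
        le_of_pow_le_pow_left₀ (by norm_num) (by linarith) (g3.trans g5)
      obtain ⟨f1, f2, f3, f4⟩ := factsD (ζ := ζ) hρ hi1 hjA (hε0 m) hw
      set f := (2:ℝ)^j with hf
      have hb : (1:ℝ) ≤ (w.1:ℝ) := by exact_mod_cast g2
      have hc1 : (1:ℝ) ≤ |(w.2.1:ℝ)| := by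
        have h5 : w.2.1 ≠ 0 := by
          intro h0
          rw [h0] at g3
          simp only [Int.cast_zero, abs_zero, mul_zero] at g3
          have : 0 < f^4 := by positivity
          linarith
        have := Int.one_le_abs h5
        exact_mod_cast this
      have hbA : (w.1:ℝ) ≤ (A m)^4 := by nlinarith
      refine ⟨⟨?_, ?_⟩, ?_⟩
      · calc (1:ℝ) ≤ 2^40 * ρ * (A m)^2 * f^2 * w.1 := f2
          _ ≤ 2^40 * ρ * (A m)^2 * (A m)^2 * (A m)^4 := by gcongr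
          _ = 2^40 * ρ * (A m)^8 := by ring
      · have h7 : (1:ℝ) ≤ f^2 := one_le_pow₀ hi1
        calc ρ * δ * (2^20 * (A m)^2) ≤ ρ * 1 * (2^20 * (A m)^2) := by gcongr
          _ = ρ * (2^20 * (A m)^2 * 1 * 1) := by ring
          _ ≤ ρ * (2^24 * (A m)^2 * f^2 * w.1) := by gcongr <;> norm_num
          _ < 1 := f1
      · rw [Finset.mem_range]
        have h1 : (2:ℝ)^j ≤ (2:ℝ)^(a m) := hjA
        rw [pow_le_pow_iff_right₀ (by norm_num)] at h1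
        omega
    -- no threat of an earlier stage contains the interval
    have HB : ∀ v : ℤ × ℤ, IsCoprime v.1 v.2 → 0 < v.1 → 65536 * ρ < 1/(8*(v.1:ℝ)^2) →
        ¬ (|x - (thB v).1| + ρ ≤ (thB v).2) := by
      intro v hv hv0 hlt
      obtain ⟨m, hm1, hm2⟩ := stB v hv hv0
      exact hno m (stage_lt hm2 hlt) _ hm1
    have HD : ∀ (m0 j : ℕ) (w : ℤ × ℤ × ℤ), Prim w → 0 < w.1 →
        ((2:ℝ)^j)^4 ≤ (w.1:ℝ) * |(w.2.1:ℝ)| →
        (w.1:ℝ) * |(w.2.1:ℝ)| < 16 * ((2:ℝ)^j)^4 → (w.1:ℝ) * |(w.2.1:ℝ)| ≤ (A m0)^4 →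
        65536 * ρ < 1/(2^24 * (A m0)^2 * ((2:ℝ)^j)^2 * w.1) →
        ¬ (|x - (thD ζ (ε m0) (A m0) (2^j) w).1| + ρ ≤ (thD ζ (ε m0) (A m0) (2^j) w).2) := by
      intro m0 j w h1 h2 h3 h4 h5 hlt
      obtain ⟨m, hm1, hm2⟩ := stD m0 j w h1 h2 h3 h4 h5
      exact hno m (stage_lt hm2 hlt) _ hm1
    have HP : ∀ (m0 i : ℕ) (v : ℤ × ℤ × ℤ), Prim v → 0 < v.1 → ((2:ℝ)^i)^4 ≤ (v.1:ℝ) →
        (v.1:ℝ) < 16 * ((2:ℝ)^i)^4 → (v.1:ℝ) ≤ (A m0)^4 → |(v.2.1:ℝ) - ζ * v.1| < 1 →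
        65536 * ρ < 1/(2^24 * (A m0)^3 * ((2:ℝ)^i)^5 * |(v.2.1:ℝ) - ζ * v.1|) →
        ¬ (|x - (thP ζ (ε m0) (A m0) v).1| + ρ ≤ (thP ζ (ε m0) (A m0) v).2) := by
      intro m0 i v h1 h2 h3 h4 h5 h6 hlt
      obtain ⟨m, hm1, hm2⟩ := stP m0 i v h1 h2 h3 h4 h5 h6
      exact hno m (stage_lt hm2 hlt) _ hm1
    -- the three parts
    have SB : Small ρ (thB '' {v | okB ρ v ∧ |(thB v).1 - x| < (thB v).2 + ρ}) (1/2^15) := by
      refine (small_of_card hρ {v | okB ρ v ∧ |(thB v).1 - x| < (thB v).2 + ρ} thB 1 ((1/32)^4)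
        (fun T hT => cardB ρ x hρ T hT) ?_ ?_ (by norm_num)).mono (fun t ht => ht) ?_
      · intro v hv
        obtain ⟨⟨h1, h2, h3, h4⟩, h5⟩ := hv
        have : (0:ℝ) < (v.1:ℝ) := by exact_mod_cast h2
        simp only [thB]; positivity
      · intro v hv
        obtain ⟨⟨h1, h2, h3, h4⟩, h5⟩ := hv
        have h6 : (0:ℝ) < (v.1:ℝ) := by exact_mod_cast h2
        have e : (thB v).2 = (1/(8 * (v.1:ℝ)^2)) * (1/2^36) := by
          simp only [thB]; field_simp; norm_num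
        rw [div_le_iff₀ hρ, e]
        nlinarith
      · rw [W_pow4 (by norm_num)]; norm_num
    have SP : ∀ m0, Small ρ {t | ∃ i ∈ Finset.range (a m0+1), t ∈ thP ζ (ε m0) (A m0) ''
        {v | okP ζ ρ (A m0) (2^i) v ∧
          |(thP ζ (ε m0) (A m0) v).1 - x| < (thP ζ (ε m0) (A m0) v).2 + ρ}}
        (2^32/(N m0 : ℝ)) := by
      intro m0
      have hAm := hA1 m0
      refine (Small.biUnion hρ (Finset.range (a m0+1)) (fun i => thP ζ (ε m0) (A m0) ''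
        {v | okP ζ ρ (A m0) (2^i) v ∧
          |(thP ζ (ε m0) (A m0) v).1 - x| < (thP ζ (ε m0) (A m0) v).2 + ρ})
        (fun i => (((N m0)^8 : ℕ):ℝ) * W (2^40 * (ε m0) * ((2:ℝ)^i/2^(a m0)))) ?_).mono
          (fun t ht => ht)
        (level_sum' (N m0) (a m0) 8 le_rfl (hN47' m0) (ε m0) (hε m0))
      intro i hi
      have hi1 : (1:ℝ) ≤ (2:ℝ)^i := one_le_pow₀ (by norm_num)
      have hiA : (2:ℝ)^i ≤ A m0 := by
        refine pow_le_pow_right₀ (by norm_num) ?_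
        have := Finset.mem_range.1 hi
        omega
      have hεm := hε0 m0
      refine small_of_card hρ _ _ ((N m0)^8) _ (fun T hT => ?_) ?_ ?_ (by positivity)
      · exact cardP ζ ρ x (A m0) (2^i) δ (ε m0) (N m0) hρ hi1 hiA hδ hbad (hN47' m0) (hNδ' m0)
          (hε m0) HB (HD m0) T hT
      · intro v hv
        exact (factsP hρ hi1 hiA hδ hbad (hε0 m0) hv.1).2.2.2.2.2.1
      · intro v hv
        exact (factsP hρ hi1 hiA hδ hbad (hε0 m0) hv.1).2.2.2.2.2.2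
    have SD : ∀ m0, Small ρ {t | ∃ j ∈ Finset.range (a m0+1), t ∈ thD ζ (ε m0) (A m0) (2^j) ''
        {w | okD ρ (A m0) (2^j) w ∧
          |(thD ζ (ε m0) (A m0) (2^j) w).1 - x| < (thD ζ (ε m0) (A m0) (2^j) w).2 + ρ}}
        (2^32/(N m0 : ℝ)) := by
      intro m0
      have hAm := hA1 m0
      refine (Small.biUnion hρ (Finset.range (a m0+1)) (fun j => thD ζ (ε m0) (A m0) (2^j) ''
        {w | okD ρ (A m0) (2^j) w ∧
          |(thD ζ (ε m0) (A m0) (2^j) w).1 - x| < (thD ζ (ε m0) (A m0) (2^j) w).2 + ρ})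
        (fun j => (((N m0)^6 : ℕ):ℝ) * W (2^40 * (ε m0) * ((2:ℝ)^j/2^(a m0)))) ?_).mono
          (fun t ht => ht)
        (level_sum' (N m0) (a m0) 6 (by norm_num) (hN47' m0) (ε m0) (hε m0))
      intro i hi
      have hi1 : (1:ℝ) ≤ (2:ℝ)^i := one_le_pow₀ (by norm_num)
      have hiA : (2:ℝ)^i ≤ A m0 := by
        refine pow_le_pow_right₀ (by norm_num) ?_
        have := Finset.mem_range.1 hi
        omega
      have hεm := hε0 m0
      refine small_of_card hρ _ _ ((N m0)^6) _ (fun T hT => ?_) ?_ ?_ (by positivity)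
      · exact cardD ζ ρ x (A m0) (2^i) δ (ε m0) (N m0) hρ hi1 hiA hδ hbad (hN47' m0) (hε m0)
          (HP m0) T hT
      · intro v hv
        exact (factsD hρ hi1 hiA (hε0 m0) hv.1).2.2.1
      · intro v hv
        exact (factsD hρ hi1 hiA (hε0 m0) hv.1).2.2.2
    have hw : ∑ m ∈ I, 2^32/(N m : ℝ) ≤ 1/2^15 := by
      have h1 : ∀ m ∈ I, 2^32/(N m : ℝ) = (2^32/N0) * (1/s m) := by
        intro m _
        have hsm : (0:ℝ) < s m := by exact_mod_cast hs m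
        rw [hNdef]
        push_cast
        field_simp
      rw [Finset.sum_congr rfl h1, ← Finset.mul_sum]
      have h2 : (2^32/N0 : ℝ) ≤ 1/2^18 := by
        rw [div_le_div_iff₀ hN00 (by norm_num)]
        calc (2:ℝ)^32 * 2^18 ≤ (2:ℝ)^51 := by norm_num
          _ ≤ 1 * (N0:ℝ) := by linarith
      have h3 : (0:ℝ) ≤ 2^32/N0 := by positivity
      calc (2^32/N0 : ℝ) * ∑ m ∈ I, (1:ℝ)/s m ≤ (2^32/N0 : ℝ) * 8 := by gcongr
        _ ≤ (1/2^18) * 8 := by gcongr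
        _ ≤ 1/2^15 := by norm_num
    have SPI := (Small.biUnion hρ I _ _ (fun m _ => SP m)).mono (fun t ht => ht) hw
    have SDI := (Small.biUnion hρ I _ _ (fun m _ => SD m)).mono (fun t ht => ht) hw
    refine ((SB.union hρ SPI).union hρ SDI).mono ?_ (by norm_num)
    rintro t ⟨ht, hmeet⟩
    rcases ht with ⟨v, hv, rfl⟩ | ⟨m, i, v, hv, rfl⟩ | ⟨m, j, w, hw, rfl⟩
    · exact Or.inl (Or.inl ⟨v, ⟨hv, hmeet⟩, rfl⟩)
    · obtain ⟨h1, h2⟩ := actP m i v hv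
      exact Or.inl (Or.inr ⟨m, hI m h1, i, h2, v, ⟨hv, hmeet⟩, rfl⟩)
    · obtain ⟨h1, h2⟩ := actD m j w hw
      exact Or.inr ⟨m, hI m h1, j, h2, w, ⟨hw, hmeet⟩, rfl⟩
  obtain ⟨ξ, hξ⟩ := game Thr hfin
  refine ⟨ξ, ?_, ?_⟩
  · intro v hv hv0
    obtain ⟨n, hn, _⟩ := stB v hv hv0
    exact hξ n _ hn
  · intro m v hv hv0 hvA hy
    have h1 : (1:ℝ) ≤ (v.1:ℝ) := by exact_mod_cast hv0
    obtain ⟨i, hi1, hi2⟩ := exists_pow16 _ h1
    obtain ⟨n, hn, _⟩ := stP m i v hv hv0 hi1 hi2 hvA hy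
    exact hξ n _ hn

end Pool.Agent.W74.MD
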